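import Mathlib

/-!
# Levels of the Markoff-type surfaces modulo small primes covered by exceptional orbits
-/

namespace Pool.Agent.Results.MP_c86b5e_nt.SmallLevels

/-- permutation of the coordinates -/
def coordPerm (p : ℕ) (σ : Equiv.Perm (Fin 3)) : Equiv.Perm (Fin 3 → ZMod p) :=
  σ.arrowCongr (Equiv.refl (ZMod p))

/-- the Vieta involution `(x, y, z) ↦ (x, y, x y - z)` -/
def vieta (p : ℕ) : Equiv.Perm (Fin 3 → ZMod p) where
  toFun v := ![v 0, v 1, v 0 * v 1 - v 2]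
  invFun v := ![v 0, v 1, v 0 * v 1 - v 2]
  left_inv v := by
    ext i
    fin_cases i <;> simp
  right_inv v := by
    ext i
    fin_cases i <;> simp

/-- the group generated by the coordinate permutations and the Vieta involution -/
def Gam (p : ℕ) : Subgroup (Equiv.Perm (Fin 3 → ZMod p)) :=
  Subgroup.closure (Set.range (coordPerm p) ∪ {vieta p})

/-- the level set `x² + y² + z² - x y z - 2 = k` -/
def M (p : ℕ) (k : ZMod p) : Set (Fin 3 → ZMod p) :=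
  {v | v 0 ^ 2 + v 1 ^ 2 + v 2 ^ 2 - v 0 * v 1 * v 2 - 2 = k}

/-- the exceptional triples; the roots of `f² = f + 1` are `(1 ± √5) / 2` (for `p` odd) -/
def Exc (p : ℕ) : Set (Fin 3 → ZMod p) :=
  {v | (∃ t, v = ![t, 0, 0]) ∨ v = ![1, 1, 0] ∨ (∃ s, s ^ 2 = 2 ∧ v = ![s, 1, 0]) ∨
    ∃ f, f ^ 2 = f + 1 ∧ (v = ![f, 1 - f, 0] ∨ v = ![f, 1, 0])}

/-- the union of the exceptional orbits contained in the level set -/
def E (p : ℕ) (k : ZMod p) : Set (Fin 3 → ZMod p) :=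
  {v | ∃ e ∈ Exc p, e ∈ M p k ∧ v ∈ MulAction.orbit (Gam p) e}

/-- the statement in question -/
def Statement : Prop :=
  ∀ p : ℕ, p.Prime → p ≠ 2 → ∀ k : ZMod p, k ≠ 2 → k ≠ -2 →
    ∃ v, M p k \ E p k = MulAction.orbit (Gam p) v

/-! ### Enumeration of orbits -/

/-- the steps on codes -/
def nstep (p : ℕ) (g : ℕ) (v : ℕ × ℕ × ℕ) : ℕ × ℕ × ℕ :=
  if g = 0 then (v.2.1, v.1, v.2.2) else if g = 1 then (v.1, v.2.2, v.2.1)
  else (v.1, v.2.1, (v.1 * v.2.1 + (p - 1) * v.2.2) % p)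

/-- the triple with a given code -/
def dec (p : ℕ) (v : ℕ × ℕ × ℕ) : Fin 3 → ZMod p := ![(v.1 : ZMod p), (v.2.1 : ZMod p), (v.2.2 : ZMod p)]

/-- enumeration of an orbit -/
def build (p : ℕ) (b : ℕ × ℕ × ℕ) : List (ℕ × ℕ) → List (ℕ × ℕ × ℕ) → List (ℕ × ℕ × ℕ)
  | [], acc => acc
  | s :: l, acc => build p b l (nstep p s.2 (acc.getD s.1 b) :: acc)

theorem mem_gam_vieta (p : ℕ) : vieta p ∈ Gam p :=
  Subgroup.subset_closure (Or.inr rfl)

theorem mem_gam_perm (p : ℕ) (σ : Equiv.Perm (Fin 3)) : coordPerm p σ ∈ Gam p :=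
  Subgroup.subset_closure (Or.inl ⟨σ, rfl⟩)

theorem e_closed (p : ℕ) (k : ZMod p) (v : Fin 3 → ZMod p) (hv : v ∈ E p k)
    (g : Equiv.Perm (Fin 3 → ZMod p)) (hg : g ∈ Gam p) : g v ∈ E p k := by
  obtain ⟨e, he, hek, a, rfl⟩ := hv
  exact ⟨e, he, hek, (⟨g, hg⟩ : Gam p) * a, rfl⟩

theorem dec_nstep (p : ℕ) (hp : 1 ≤ p) (g : ℕ) (v : ℕ × ℕ × ℕ) :
    ∃ h ∈ Gam p, dec p (nstep p g v) = h (dec p v) := by
  unfold nstep
  split_ifs with h0 h1
  · refine ⟨coordPerm p (Equiv.swap 0 1), mem_gam_perm _ _, ?_⟩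
    ext i
    fin_cases i <;> simp [dec, coordPerm, Equiv.swap_apply_def]
  · refine ⟨coordPerm p (Equiv.swap 1 2), mem_gam_perm _ _, ?_⟩
    ext i
    fin_cases i <;> simp [dec, coordPerm, Equiv.swap_apply_def]
  · refine ⟨vieta p, mem_gam_vieta _, ?_⟩
    have h2 : ((p - 1 : ℕ) : ZMod p) = -1 := by
      rw [Nat.cast_sub hp]; simp
    ext i
    fin_cases i
    · simp [dec, vieta]
    · simp [dec, vieta]
    · simp [dec, vieta, h2, sub_eq_add_neg]

theorem build_mem (p : ℕ) (hp : 1 ≤ p) (k : ZMod p) (b : ℕ × ℕ × ℕ) (hb : dec p b ∈ E p k)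
    (l : List (ℕ × ℕ)) : ∀ acc : List (ℕ × ℕ × ℕ), (∀ v ∈ acc, dec p v ∈ E p k) →
      ∀ v ∈ build p b l acc, dec p v ∈ E p k := by
  induction l with
  | nil => intro acc h; exact h
  | cons s l ih =>
    intro acc h
    refine ih _ ?_
    intro v hv
    rcases List.mem_cons.1 hv with rfl | hv
    · obtain ⟨g, hg, he⟩ := dec_nstep p hp s.2 (acc.getD s.1 b)
      rw [he]
      refine e_closed p k _ ?_ g hg
      rw [List.getD_eq_getElem?_getD]
      rcases h3 : acc[s.1]? with _ | u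
      · exact hb
      · exact h u (List.mem_of_getElem? h3)
    · exact h v hv

/-- every solution of the congruence occurs in the list -/
def covered (p k : ℕ) (L : List (ℕ × ℕ × ℕ)) : Bool :=
  (List.range p).all fun x => (List.range p).all fun y => (List.range p).all fun z =>
    (x * x + y * y + z * z) % p != (x * y * z + 2 + k) % p || L.contains (x, y, z)

theorem cover (p : ℕ) [NeZero p] (k : ℕ) (b : ℕ × ℕ × ℕ) (l : List (ℕ × ℕ))
    (acc : List (ℕ × ℕ × ℕ)) (hb : dec p b ∈ E p (k : ZMod p))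
    (hacc : ∀ v ∈ acc, dec p v ∈ E p (k : ZMod p))
    (hc : covered p k (build p b l acc) = true) : M p (k : ZMod p) \ E p (k : ZMod p) = ∅ := by
  rw [Set.sdiff_eq_empty]
  intro v hv
  have hv' : v 0 ^ 2 + v 1 ^ 2 + v 2 ^ 2 - v 0 * v 1 * v 2 - 2 = (k : ZMod p) := hv
  unfold covered at hc
  rw [List.all_eq_true] at hc
  have h1 := hc (v 0).val (List.mem_range.2 (ZMod.val_lt _))
  rw [List.all_eq_true] at h1
  have h2 := h1 (v 1).val (List.mem_range.2 (ZMod.val_lt _))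
  rw [List.all_eq_true] at h2
  have h3 := h2 (v 2).val (List.mem_range.2 (ZMod.val_lt _))
  rw [Bool.or_eq_true, bne_iff_ne] at h3
  have h4 : ((v 0).val * (v 0).val + (v 1).val * (v 1).val + (v 2).val * (v 2).val) % p =
      ((v 0).val * (v 1).val * (v 2).val + 2 + k) % p := by
    have h5 : (((v 0).val * (v 0).val + (v 1).val * (v 1).val + (v 2).val * (v 2).val : ℕ) :
        ZMod p) = (((v 0).val * (v 1).val * (v 2).val + 2 + k : ℕ) : ZMod p) := by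
      push_cast
      rw [ZMod.natCast_zmod_val, ZMod.natCast_zmod_val, ZMod.natCast_zmod_val, ← hv']
      ring
    exact (ZMod.natCast_eq_natCast_iff' _ _ _).1 h5
  rcases h3 with h3 | h3
  · exact absurd h4 h3
  · have h6 : ((v 0).val, (v 1).val, (v 2).val) ∈ build p b l acc := List.contains_iff_mem.1 h3
    have h7 := build_mem p (Nat.one_le_iff_ne_zero.2 (NeZero.ne p)) (k : ZMod p) b hb l acc hacc _ h6
    have h8 : dec p ((v 0).val, (v 1).val, (v 2).val) = v := by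
      ext i
      fin_cases i <;> simp [dec]
    rwa [h8] at h7

theorem self_mem (p : ℕ) (k : ZMod p) (v : Fin 3 → ZMod p) (h1 : v ∈ Exc p) (h2 : v ∈ M p k) :
    v ∈ E p k := ⟨v, h1, h2, MulAction.mem_orbit_self v⟩

theorem case_3_0 : M 3 0 \ E 3 0 = ∅ := by
  have e0 : dec 3 (1, 1, 0) ∈ E 3 ((0 : ℕ) : ZMod 3) := by
    refine self_mem _ _ _ (Or.inr (Or.inl (by decide))) ?_
    show _ = _
    decide
  have h := cover 3 0 (1, 1, 0)
    [(0, 1), (1, 2), (1, 0), (2, 2), (1, 2), (1, 1), (1, 1), (1, 0), (2, 2), (2, 0),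
      (3, 2), (3, 2), (2, 2), (1, 1), (1, 1)]
    [(1, 1, 0)] e0 ?_ (by decide +kernel)
  · exact_mod_cast h
  · intro v hv
    simp only [List.mem_cons, List.not_mem_nil, or_false] at hv
    subst hv; exact e0

theorem case_5_0 : M 5 0 \ E 5 0 = ∅ := by
  have e0 : dec 5 (1, 1, 0) ∈ E 5 ((0 : ℕ) : ZMod 5) := by
    refine self_mem _ _ _ (Or.inr (Or.inl (by decide))) ?_
    show _ = _
    decide
  have h := cover 5 0 (1, 1, 0)
    [(0, 1), (1, 2), (1, 0), (2, 2), (1, 2), (1, 1), (1, 1), (1, 0), (2, 2), (2, 0),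
      (3, 2), (3, 2), (2, 2), (1, 1), (1, 1)]
    [(1, 1, 0)] e0 ?_ (by decide +kernel)
  · exact_mod_cast h
  · intro v hv
    simp only [List.mem_cons, List.not_mem_nil, or_false] at hv
    subst hv; exact e0

theorem case_5_4 : M 5 4 \ E 5 4 = ∅ := by
  have e0 : dec 5 (1, 0, 0) ∈ E 5 ((4 : ℕ) : ZMod 5) := by
    refine self_mem _ _ _ (Or.inl ⟨1, by decide⟩) ?_
    show _ = _
    decide
  have e1 : dec 5 (4, 0, 0) ∈ E 5 ((4 : ℕ) : ZMod 5) := by
    refine self_mem _ _ _ (Or.inl ⟨4, by decide⟩) ?_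
    show _ = _
    decide
  have h := cover 5 4 (1, 0, 0)
    [(1, 0), (1, 0), (1, 1), (1, 1)]
    [(1, 0, 0), (4, 0, 0)] e0 ?_ (by decide +kernel)
  · exact_mod_cast h
  · intro v hv
    simp only [List.mem_cons, List.not_mem_nil, or_false] at hv
    rcases hv with rfl | rfl
    · exact e0
    · exact e1

theorem case_7_0 : M 7 0 \ E 7 0 = ∅ := by
  have e0 : dec 7 (3, 0, 0) ∈ E 7 ((0 : ℕ) : ZMod 7) := by
    refine self_mem _ _ _ (Or.inl ⟨3, by decide⟩) ?_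
    show _ = _
    decide
  have e1 : dec 7 (4, 0, 0) ∈ E 7 ((0 : ℕ) : ZMod 7) := by
    refine self_mem _ _ _ (Or.inl ⟨4, by decide⟩) ?_
    show _ = _
    decide
  have e2 : dec 7 (1, 1, 0) ∈ E 7 ((0 : ℕ) : ZMod 7) := by
    refine self_mem _ _ _ (Or.inr (Or.inl (by decide))) ?_
    show _ = _
    decide
  have h := cover 7 0 (3, 0, 0)
    [(2, 1), (3, 2), (3, 0), (3, 0), (3, 0), (4, 2), (3, 1), (3, 1), (3, 2), (3, 1),
      (1, 1), (1, 0), (2, 2), (2, 0), (3, 2), (3, 2), (2, 2), (1, 1), (1, 1)]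
    [(3, 0, 0), (4, 0, 0), (1, 1, 0)] e0 ?_ (by decide +kernel)
  · exact_mod_cast h
  · intro v hv
    simp only [List.mem_cons, List.not_mem_nil, or_false] at hv
    rcases hv with rfl | rfl | rfl
    · exact e0
    · exact e1
    · exact e2

theorem case_7_1 : M 7 1 \ E 7 1 = ∅ := by
  have e0 : dec 7 (3, 1, 0) ∈ E 7 ((1 : ℕ) : ZMod 7) := by
    refine self_mem _ _ _ (Or.inr (Or.inr (Or.inl ⟨3, by decide, by decide⟩))) ?_
    show _ = _
    decide
  have e1 : dec 7 (4, 1, 0) ∈ E 7 ((1 : ℕ) : ZMod 7) := by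
    refine self_mem _ _ _ (Or.inr (Or.inr (Or.inl ⟨4, by decide, by decide⟩))) ?_
    show _ = _
    decide
  have h := cover 7 1 (3, 1, 0)
    [(1, 0), (2, 1), (3, 2), (3, 0), (4, 1), (5, 2), (5, 1), (6, 2), (6, 0), (7, 2),
      (7, 1), (7, 1), (8, 2), (8, 0), (9, 2), (9, 1), (9, 0), (8, 2), (8, 1), (7, 0),
      (6, 2), (6, 1), (4, 1), (4, 0), (5, 2), (4, 1), (4, 0), (5, 2), (5, 0), (5, 2),
      (5, 1), (5, 0), (5, 2), (5, 1)]
    [(3, 1, 0), (4, 1, 0)] e0 ?_ (by decide +kernel)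
  · exact_mod_cast h
  · intro v hv
    simp only [List.mem_cons, List.not_mem_nil, or_false] at hv
    rcases hv with rfl | rfl
    · exact e0
    · exact e1

theorem case_11_1 : M 11 1 \ E 11 1 = ∅ := by
  have e0 : dec 11 (5, 0, 0) ∈ E 11 ((1 : ℕ) : ZMod 11) := by
    refine self_mem _ _ _ (Or.inl ⟨5, by decide⟩) ?_
    show _ = _
    decide
  have e1 : dec 11 (6, 0, 0) ∈ E 11 ((1 : ℕ) : ZMod 11) := by
    refine self_mem _ _ _ (Or.inl ⟨6, by decide⟩) ?_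
    show _ = _
    decide
  have e2 : dec 11 (4, 8, 0) ∈ E 11 ((1 : ℕ) : ZMod 11) := by
    refine self_mem _ _ _ (Or.inr (Or.inr (Or.inr ⟨4, by decide, Or.inl (by decide)⟩))) ?_
    show _ = _
    decide
  have e3 : dec 11 (8, 4, 0) ∈ E 11 ((1 : ℕ) : ZMod 11) := by
    refine self_mem _ _ _ (Or.inr (Or.inr (Or.inr ⟨8, by decide, Or.inl (by decide)⟩))) ?_
    show _ = _
    decide
  have h := cover 11 1 (5, 0, 0)
    [(3, 1), (4, 2), (4, 1), (5, 2), (5, 0), (5, 0), (5, 0), (6, 2), (6, 1), (6, 0),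
      (7, 2), (7, 1), (7, 1), (7, 1), (7, 2), (7, 1), (7, 0), (8, 2), (8, 2), (8, 1),
      (8, 0), (9, 2), (7, 1), (7, 0), (8, 2), (8, 2), (7, 1), (7, 0), (8, 2), (8, 2),
      (7, 0), (8, 2), (8, 2), (8, 1), (8, 1), (8, 0), (9, 2), (9, 2), (9, 1), (9, 1),
      (9, 2), (8, 1), (8, 0), (9, 2), (8, 2), (7, 1), (7, 0), (8, 2), (7, 1), (7, 0),
      (8, 2), (8, 2), (7, 1), (7, 0), (8, 2), (8, 2), (7, 2), (7, 2), (7, 1), (7, 1),
      (7, 2), (7, 2), (7, 1), (7, 1), (7, 1), (7, 1), (7, 0), (6, 1), (6, 1), (6, 0),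
      (5, 0), (5, 0), (4, 0), (4, 0)]
    [(5, 0, 0), (6, 0, 0), (4, 8, 0), (8, 4, 0)] e0 ?_ (by decide +kernel)
  · exact_mod_cast h
  · intro v hv
    simp only [List.mem_cons, List.not_mem_nil, or_false] at hv
    rcases hv with rfl | rfl | rfl | rfl
    · exact e0
    · exact e1
    · exact e2
    · exact e3

theorem result : ¬ Statement ∧
    (M 3 0 \ E 3 0 = ∅ ∧ M 5 0 \ E 5 0 = ∅ ∧ M 5 4 \ E 5 4 = ∅ ∧
      M 7 0 \ E 7 0 = ∅ ∧ M 7 1 \ E 7 1 = ∅ ∧ M 11 1 \ E 11 1 = ∅) := by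
  refine ⟨?_, case_3_0, case_5_0, case_5_4, case_7_0, case_7_1, case_11_1⟩
  intro h
  obtain ⟨v, hv⟩ := h 3 Nat.prime_three (by norm_num) 0 (by decide) (by decide)
  rw [case_3_0] at hv
  have h1 : v ∈ MulAction.orbit (Gam 3) v := MulAction.mem_orbit_self v
  rw [← hv] at h1
  exact h1

end Pool.Agent.Results.MP_c86b5e_nt.SmallLevels
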